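import Pool.Agent.H535Z.Tor.Ex

set_option autoImplicit false

namespace Pool.Agent.Results.MP_dca5ce_ag.ANoExponentTwo

open Pool.Agent.H535Z.Tor

/-- For every `e` there are a one-dimensional Noetherian local domain `R` and a finitely generated
torsionfree non-free `R`-module whose `e`-th tensor power is torsionfree. -/
theorem result (e : ℕ) :
    ∃ (R : Type) (_ : CommRing R) (_ : IsDomain R) (_ : IsNoetherianRing R) (_ : IsLocalRing R),
      ringKrullDim R = 1 ∧ ∃ (M : Type) (_ : AddCommGroup M) (_ : Module R M),
        Module.Finite R M ∧ Submodule.torsion R M = ⊥ ∧ ¬ Module.Free R M ∧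
        Submodule.torsion R (TensorPower R e M) = ⊥ := by
  classical
  have h : Module.finrank (ZMod 2) (GaloisField 2 (e + 2)) = e + 2 :=
    GaloisField.finrank 2 (by omega)
  exact ⟨RR (ZMod 2) (GaloisField 2 (e + 2)), inferInstance, inferInstance, noeth_RR, inferInstance,
    dim_RR, MM _ (Q1 (ZMod 2) (GaloisField 2 (e + 2))) 1, inferInstance, inferInstance,
    inferInstance, example_main e (by omega) (by omega)⟩

end Pool.Agent.Results.MP_dca5ce_ag.ANoExponentTwo
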