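import Pool.Agent.H535Z.Tor.DimOne

set_option autoImplicit false

namespace Pool.Agent.Results.MP_dca5ce_ag.BDimensionOne

/-- Let `R` be a one-dimensional Noetherian local domain and `x` a nonzero element of the maximal
ideal. Then the length of `R / x R` is finite, and every `e` at least this length is a test exponent:
the `e`-th tensor power of every finitely generated non-free module has nonzero torsion. -/
theorem result (R : Type) [CommRing R] [IsDomain R] [IsNoetherianRing R] [IsLocalRing R]
    (hR : ringKrullDim R = 1) (x : R) (hx : x ≠ 0) (hm : x ∈ IsLocalRing.maximalIdeal R) :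
    ∃ l : ℕ, Module.length R (R ⧸ Ideal.span {x}) = l ∧ ∀ e : ℕ, l ≤ e →
      ∀ (M : Type) [AddCommGroup M] [Module R M], Module.Finite R M → ¬ Module.Free R M →
        Submodule.torsion R (TensorPower R e M) ≠ ⊥ := by
  have : Ring.KrullDimLE 1 R := Ring.krullDimLE_iff.2 (by simp [hR])
  have h := Module.length_ne_top_iff.2
    (isFiniteLength_quotient_span_singleton R (mem_nonZeroDivisors_of_ne_zero hx))
  obtain ⟨l, hl⟩ := ENat.ne_top_iff_exists.1 h
  refine ⟨l, hl.symm, fun e he M _ _ _ hM => ?_⟩
  exact H535Z.Tor.dim_one x hx hm e (by rw [← hl]; exact_mod_cast he) M hM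

end Pool.Agent.Results.MP_dca5ce_ag.BDimensionOne
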